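import Mathlib
import Pool.Agent.LawsFI.Core
import Pool.Agent.LawsFK.Grp

set_option autoImplicit false

/-!
# Independence of the cyclic laws

For a set `A` of natural numbers the test group `GA A` satisfies the laws `wrd q` with `q` in `A`
and no law `wrd N` with `N` positive and not in `A`.
-/

namespace Pool.Agent.Y355.AV

open Pool.Agent.LawsFI (F cm map_cm)
open Pool.Agent.LawsFK
open Pool.Agent.LawsFK.WG Pool.Agent.LawsFK.T4

/-- differences of order larger than the degree vanish -/
theorem P1high {n q : ℕ} (C : Fin n → Mat n) (b : Fin (q+1) → Fin n → ZMod 2)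
    (y : Fin (q+1) → Fin n → ZMod 2) (hq : n < q + 1) (s0 : Fin n) :
    ∑ S : Finset (Fin (q+1)),
      hf s0 (fun i j j' => C i j j' + ∑ k ∈ S, b k i * wd (y k) (y (k+1)) j j') = 0 := by
  set w : Fin (q+1) → Mat n := fun k => wd (y k) (y (k+1)) with hw
  have e1 : ∀ S : Finset (Fin (q+1)),
      hf s0 (fun i j j' => C i j j' + ∑ k ∈ S, b k i * w k j j') =
        ∑ r : Fin n → Option (Fin (q+1)), hf s0 (fun i => gS C b w S i (r i)) := by
    intro S
    rw [← hf_expand]
    simp only [gS_sum]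
  have e1' : ∀ S : Finset (Fin (q+1)),
      hf s0 (fun i j j' => C i j j' + ∑ k ∈ S, b k i * wd (y k) (y (k+1)) j j') =
        ∑ r : Fin n → Option (Fin (q+1)), hf s0 (fun i => gS C b w S i (r i)) := e1
  simp only [e1']
  rw [Finset.sum_comm]
  apply Finset.sum_eq_zero
  intro r _
  by_cases hr : ∀ k : Fin (q+1), ∃ i, r i = some k
  · exfalso
    choose l hl using hr
    have hinj : Function.Injective l := by
      intro k k' h
      have h1 := hl k
      rw [h, hl k'] at h1
      exact (Option.some.inj h1).symm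
    have := Fintype.card_le_of_injective l hinj
    simp at this
    omega
  · push Not at hr
    obtain ⟨k, hk⟩ := hr
    refine Finset.sum_involution (fun S _ => tog k S) ?_ ?_ ?_ ?_
    · intro S _
      have : (fun i => gS C b w (tog k S) i (r i)) = (fun i => gS C b w S i (r i)) := by
        funext i
        cases h : r i with
        | none => rfl
        | some k' =>
          have hne : k' ≠ k := by
            rintro rfl
            exact hk i h
          funext j j'
          simp only [gS]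
          by_cases h2 : k' ∈ S
          · rw [if_pos h2, if_pos ((mem_tog S hne).mpr h2)]
          · rw [if_neg h2, if_neg (fun h3 => h2 ((mem_tog S hne).mp h3))]
      rw [this]
      exact z2add _
    · intro S _ _; exact tog_ne k S
    · intro S _; exact Finset.mem_univ _
    · intro S _; exact tog_tog k S

/-- the functions killed by the cyclic differences of length `q + 1`, `q` in `A` -/
def MA (A : Set ℕ) : AddSubgroup (T4 → ZMod 2) where
  carrier := {f | ∀ q, q ∈ A → ∀ x a : ℕ → T4, dls (uu x a q) (q+1) f = 0}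
  add_mem' := by
    intro f g hf hg q hq x a
    rw [dls_add, hf q hq, hg q hq, add_zero]
  zero_mem' := by
    intro q hq x a
    rw [dls_zero]
  neg_mem' := by
    intro f hf q hq x a
    rw [dls_neg, hf q hq, neg_zero]

theorem MA_rt {A : Set ℕ} {f : T4 → ZMod 2} (hf : f ∈ MA A) (t : T4) : rt t f ∈ MA A := by
  intro q hq x a
  rw [dls_rt (uu_comm x a q), hf q hq]
  rfl

/-- the test group -/
def GA (A : Set ℕ) : Subgroup (WG T4) where
  carrier := {x | x.f ∈ MA A}
  mul_mem' := by
    intro x y hx hy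
    have : (x * y).f = x.f + rt x.t y.f := rfl
    change (x * y).f ∈ MA A
    rw [this]
    exact AddSubgroup.add_mem _ hx (MA_rt hy _)
  one_mem' := (MA A).zero_mem
  inv_mem' := by
    intro x hx
    have : (x⁻¹).f = - rt x.t⁻¹ x.f := rfl
    change (x⁻¹).f ∈ MA A
    rw [this]
    exact AddSubgroup.neg_mem _ (MA_rt hx _)

theorem GA_van (A : Set ℕ) (φ : F →* GA A) : φ van = 1 := by
  apply (GA A).subtype_injective
  rw [map_one]
  change ((GA A).subtype.comp φ) van = 1
  rw [map_van]
  have h1 := e5_t (fun i => ((GA A).subtype.comp φ) (FreeGroup.of i))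
  have h2 := e5_t (fun i => ((GA A).subtype.comp φ) (FreeGroup.of (5+i)))
  have h3 := cm_of h1 (e5 (fun i => ((GA A).subtype.comp φ) (FreeGroup.of (5+i))))
  ext1
  · rw [h3.2, h2]
    funext s
    simp only [dl, mul_one, one_f]
    exact z2add _
  · exact h3.1

theorem GA_wrd {A : Set ℕ} {q : ℕ} (hq : q ∈ A) (φ : F →* GA A) : φ (wrd q) = 1 := by
  apply (GA A).subtype_injective
  rw [map_one]
  change ((GA A).subtype.comp φ) (wrd q) = 1
  rw [map_wrd]
  have h1 := e5_t (fun i => ((GA A).subtype.comp φ) (FreeGroup.of i))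
  have h3 := chain_of h1 (uu (fun k => ((GA A).subtype.comp φ) (FreeGroup.of (5+2*k)))
    (fun k => ((GA A).subtype.comp φ) (FreeGroup.of (6+2*k))) q) (q+1)
  have hmem : (e5 (fun i => ((GA A).subtype.comp φ) (FreeGroup.of i))).f ∈ MA A := by
    rw [← map_e5]
    exact (φ (e5 (fun i => FreeGroup.of i))).2
  ext1
  · rw [h3.2, uu_t]
    exact hmem q hq _ _
  · exact h3.1

theorem Phi_mem {N : ℕ} {A : Set ℕ} (hN : N ∉ A) : Phi N ∈ MA A := by
  intro q hq x a
  have hne : q ≠ N := by rintro rfl; exact hN hq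
  funext s
  by_cases hs : InD s
  · rw [dls_Phi N q x a s hs]
    rcases lt_or_gt_of_ne hne with h | h
    · exact P1 (fun i => Cm_SZ _ _ _) (fun k i => (a k).a (N+1+i))
        (fun k j => (x k).a (j : ℕ)) (by omega) 0
    · exact P1high _ (fun k i => (a k).a (N+1+i))
        (fun k j => (x k).a (j : ℕ)) (by omega) 0
  · rw [dls_formula (u := uu x a q) (fun i => uu_InD x a q i)]
    apply Finset.sum_eq_zero
    intro S _
    unfold Phi
    rw [if_neg (fun h => hs (InD_sh.mp h))]

theorem GA_not_wrd {N : ℕ} (hN : 1 ≤ N) {A : Set ℕ} (hA : N ∉ A) :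
    ∃ φ : F →* GA A, φ (wrd N) ≠ 1 := by
  let z0 : GA A := ⟨⟨Phi N, 1⟩, Phi_mem hA⟩
  let em : T4 → GA A := fun t => ⟨⟨0, t⟩, (MA A).zero_mem⟩
  let φ : F →* GA A := FreeGroup.lift (fun i =>
    if i = 0 then z0 else if i < 5 then em (bs i) else
      if i % 2 = 1 then em (bs ((i - 5) / 2)) else em (bs (N+1+(i-6)/2)))
  refine ⟨φ, fun hcon => ?_⟩
  have h0 : ((GA A).subtype.comp φ) (wrd N) = 1 := by
    rw [MonoidHom.comp_apply, hcon, map_one]
  set ψ := (GA A).subtype.comp φ with hψ
  rw [map_wrd] at h0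
  have hz0 : ψ (FreeGroup.of 0) = ⟨Phi N, 1⟩ := by simp [hψ, φ, z0]
  have hz1 : ψ (FreeGroup.of 1) = ⟨0, bs 1⟩ := by simp [hψ, φ, em]
  have hz2 : ψ (FreeGroup.of 2) = ⟨0, bs 2⟩ := by simp [hψ, φ, em]
  have hz3 : ψ (FreeGroup.of 3) = ⟨0, bs 3⟩ := by simp [hψ, φ, em]
  have hz4 : ψ (FreeGroup.of 4) = ⟨0, bs 4⟩ := by simp [hψ, φ, em]
  have hx : ∀ k, ψ (FreeGroup.of (5+2*k)) = ⟨0, bs k⟩ := by
    intro k
    have e1 : ¬ (5 + 2 * k = 0) := by omega
    have e2 : ¬ (5 + 2 * k < 5) := by omega
    have e3 : (5 + 2 * k) % 2 = 1 := by omega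
    have e4 : (5 + 2 * k - 5) / 2 = k := by omega
    simp [hψ, φ, em, e3]
  have ha : ∀ k, ψ (FreeGroup.of (6+2*k)) = ⟨0, bs (N+1+k)⟩ := by
    intro k
    have e1 : ¬ (6 + 2 * k = 0) := by omega
    have e2 : ¬ (6 + 2 * k < 5) := by omega
    have e3 : ¬ ((6 + 2 * k) % 2 = 1) := by omega
    have e4 : (6 + 2 * k - 6) / 2 = k := by omega
    simp [hψ, φ, em, e2]
  have h1 := e5_t (fun i => ψ (FreeGroup.of i))
  have h3 := chain_of h1 (uu (fun k => ψ (FreeGroup.of (5+2*k)))
    (fun k => ψ (FreeGroup.of (6+2*k))) N) (N+1)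
  have h4 : (chain (e5 fun i => ψ (FreeGroup.of i)) (uu (fun k => ψ (FreeGroup.of (5 + 2 * k)))
    (fun k => ψ (FreeGroup.of (6 + 2 * k))) N) (N+1)).f 1 = 0 := by
    rw [h0]; rfl
  rw [h3.2, uu_t] at h4
  have hX : (fun i => (ψ (FreeGroup.of (5+2*i))).t) = fun k => bs k := by
    funext k; rw [hx]
  have hA' : (fun i => (ψ (FreeGroup.of (6+2*i))).t) = fun k => bs (N+1+k) := by
    funext k; rw [ha]
  rw [hX, hA'] at h4
  have he : (e5 fun i => ψ (FreeGroup.of i)).f =
      dl (bs 4) (dl (bs 3) (dl (bs 2) (dl (bs 1) (Phi N)))) := by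
    unfold e5
    beta_reduce
    rw [hz0, hz1, hz2, hz3, hz4]
    have k1 := cm_of (e := (⟨Phi N, 1⟩ : WG T4)) rfl ⟨0, bs 1⟩
    have k2 := cm_of k1.1 ⟨0, bs 2⟩
    have k3 := cm_of k2.1 ⟨0, bs 3⟩
    have k4 := cm_of k3.1 ⟨0, bs 4⟩
    rw [k4.2, k3.2, k2.2, k1.2]
  rw [he] at h4
  have hu := uu_comm (fun k => bs k) (fun k => bs (N+1+k)) N
  rw [dls_dl hu, dls_dl hu, dls_dl hu, dls_dl hu] at h4
  set g := dls (uu (fun k => bs k) (fun k => bs (N+1+k)) N) (N+1) (Phi N) with hg
  have hg0 : ∀ s : T4, (∃ j ∉ (∅ : Set ℕ), s.a j ≠ 0) → g s = 0 := by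
    rintro s ⟨j, _, hj⟩
    exact Phi_supp N _ _ N (N+1) (fun h => hj (h.1 j))
  have s1 := dl_step hg0 (j := 1) (by simp)
  have s2 := dl_step s1.2 (j := 2) (by simp)
  have s3 := dl_step s2.2 (j := 3) (by simp)
  have s4 := dl_step s3.2 (j := 4) (by simp)
  rw [s4.1, s3.1, s2.1, s1.1, hg, top_value hN] at h4
  exact one_ne_zero h4

/-! ### exponents -/

theorem T4_sq_a (t : T4) (i : ℕ) : (t * t).a i = 0 := by
  rw [T4.mul_a]; exact z2add _

theorem T4_pow8 (t : T4) : t ^ 8 = 1 := by
  have h2 : t ^ 8 = ((t * t) * (t * t)) * ((t * t) * (t * t)) := by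
    rw [← pow_two, ← pow_two, ← pow_two, ← pow_mul, ← pow_mul]
  have hz : ∀ x : ZMod 2, x + x = 0 := z2add
  rw [h2]
  set u := t * t with hu
  have ua : ∀ i, u.a i = 0 := fun i => T4_sq_a t i
  set v := u * u with hv
  have va : ∀ i, v.a i = 0 := fun i => T4_sq_a u i
  have vb : ∀ i j, v.b i j = 0 := by
    intro i j
    rw [hv, T4.mul_b, ua, zero_mul, add_zero]; exact hz _
  have vc : ∀ i j k, v.c i j k = 0 := by
    intro i j k
    rw [hv, T4.mul_c, ua, ua, zero_mul, mul_zero, add_zero, add_zero]; exact hz _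
  ext
  · rw [T4.mul_a, T4.one_a]; exact hz _
  · rw [T4.mul_b, T4.one_b, va, zero_mul, add_zero]; exact hz _
  · rw [T4.mul_c, T4.one_c, va, va, zero_mul, mul_zero, add_zero, add_zero]; exact hz _
  · rw [T4.mul_d, T4.one_d, va, va, vb, zero_mul, mul_zero, zero_mul, add_zero, add_zero, add_zero]
    exact hz _

theorem WG_pow16 (x : WG T4) : x ^ 16 = 1 := by
  have h8 : (x ^ 8).t = 1 := by
    have := map_pow (proj (T := T4)) x 8
    have h2 : (x ^ 8).t = x.t ^ 8 := this
    rw [h2]; exact T4_pow8 _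
  have h16 : x ^ 16 = x ^ 8 * x ^ 8 := by rw [← pow_add]
  rw [h16]
  ext1
  · funext s
    rw [WG.mul_f, h8, mul_one, WG.one_f]
    exact z2add _
  · rw [WG.mul_t, h8, mul_one, WG.one_t]

theorem GA_pow16 (A : Set ℕ) (x : GA A) : x ^ 16 = 1 := by
  apply (GA A).subtype_injective
  rw [map_pow, map_one]
  exact WG_pow16 _

/-! ### local finiteness -/

/-- a finitely generated solvable torsion group is finite -/
theorem finite_of_solvable {G : Type*} [Group G] (hs : Group.IsSolvable G) (hfg : Group.FG G)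
    (ht : ∀ g : G, IsOfFinOrder g) : Finite G := by
  have key : ∀ n, (derivedSeries G n).FiniteIndex := by
    intro n
    induction n with
    | zero => rw [derivedSeries_zero]; infer_instance
    | succ n ih =>
      rw [derivedSeries_succ]
      set H := derivedSeries G n with hH
      haveI := hfg
      haveI := ih
      haveI h1 : Group.FG H := Subgroup.fg_of_index_ne_zero H
      haveI h2 : Group.FG (Abelianization H) := QuotientGroup.fg (commutator H)
      have h3 : ∀ x : Abelianization H, IsOfFinOrder x := by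
        intro x
        obtain ⟨g, rfl⟩ := QuotientGroup.mk_surjective x
        have hg : IsOfFinOrder g := by
          obtain ⟨m, hm, hm1⟩ := (isOfFinOrder_iff_pow_eq_one).1 (ht (g : G))
          refine (isOfFinOrder_iff_pow_eq_one).2 ⟨m, hm, Subtype.ext ?_⟩
          simpa using hm1
        exact MonoidHom.isOfFinOrder (QuotientGroup.mk' (commutator H)) hg
      haveI h4 : Finite (Abelianization H) := CommGroup.finite_of_fg_isMulTorsion _ h3
      have h5 : (commutator H).index ≠ 0 := by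
        haveI : Finite (H ⧸ commutator H) := h4
        exact Subgroup.index_ne_zero_of_finite
      have h6 : (⁅H, H⁆).subgroupOf H = commutator H := by
        rw [← Subgroup.map_subtype_commutator]
        exact Subgroup.comap_map_eq_self_of_injective (Subgroup.subtype_injective H) _
      have h7 : ⁅H, H⁆ ≤ H := by
        rw [← Subgroup.map_subtype_commutator]; exact Subgroup.map_subtype_le _
      constructor
      rw [← Subgroup.relIndex_mul_index h7, Subgroup.relIndex, h6]
      exact Nat.mul_ne_zero h5 ih.index_ne_zero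
  obtain ⟨n, hn⟩ := (Group.isSolvable_def G).1 hs
  have h := key n
  rw [hn] at h
  have h8 := h.index_ne_zero
  rw [Subgroup.index_bot] at h8
  exact Nat.finite_of_card_ne_zero h8

end Pool.Agent.Y355.AV
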